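import Pool.Agent.Lib.MP_93ec49_ag.SQ4

/-!
# Images of the fundamental groups of special manifolds: a criterion for the target group
-/

set_option autoImplicit false

namespace Pool.Agent.Results.MP_93ec49_ag.GoodTargets

open Pool.Agent.Lib.MP_93ec49_ag

/-- For a class `𝒮` of groups with the formal properties of the class of the fundamental groups of the
special compact Kähler manifolds: all homomorphisms from members of `𝒮` to `V` have virtually abelian
images if and only if every infinite finitely generated subgroup `P` of `V` has a subgroup of finite
index with an infinite image in some group which has this property. -/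
theorem result (𝒮 : (G : Type) → [Group G] → Prop) (hS : SpecialClass 𝒮) (V : Type) [Group V] :
    Abl 𝒮 V ↔ ∀ P : Subgroup V, P.FG → Infinite P → ∃ P0 : Subgroup P, P0.FiniteIndex ∧
      ∃ (W : Type) (_ : Group W) (_ : Abl 𝒮 W) (ρ : P0 →* W), Infinite ρ.range :=
  Abl.iff hS V

end Pool.Agent.Results.MP_93ec49_ag.GoodTargets
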